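import Pool.Agent.helper32.QS.Spec

set_option autoImplicit false

namespace QS

open scoped BigOperators commutatorElement

/-- conjugate subgroup -/
def LF1_cj {G : Type} [Group G] (a : G) (E : Subgroup G) : Subgroup G :=
  E.comap (MulAut.conj a⁻¹).toMonoidHom

theorem LF1_mem {G : Type} [Group G] (a : G) (E : Subgroup G) (x : G) :
    x ∈ LF1_cj a E ↔ a⁻¹ * x * a ∈ E := by
  show a⁻¹ * x * a⁻¹⁻¹ ∈ E ↔ _
  rw [inv_inv]

theorem LF1_cnt (V : Type) [Group V] [Finite V] (X : Type) [Finite X] [Nonempty X] [MulAction V X]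
    (ht : ∀ x y : X, ∃ v : V, v • x = y) (φ : X → X) :
    Nat.card {c : X × V // c.2 • c.1 = φ c.1} = Nat.card V := by
  classical
  have : Fintype X := Fintype.ofFinite X
  have : Fintype V := Fintype.ofFinite V
  have e1 : {c : X × V // c.2 • c.1 = φ c.1} ≃ Σ x : X, {v : V // v • x = φ x} :=
    { toFun := fun c => ⟨c.1.1, ⟨c.1.2, c.2⟩⟩
      invFun := fun s => ⟨(s.1, s.2.1), s.2.2⟩
      left_inv := fun c => rfl
      right_inv := fun s => rfl }
  rw [Nat.card_congr e1, Nat.card_sigma]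
  have h2 : ∀ x : X, Nat.card {v : V // v • x = φ x} = Nat.card (MulAction.stabilizer V x) := by
    intro x
    obtain ⟨w, hw⟩ := ht x (φ x)
    refine Nat.card_congr
      { toFun := fun v => ⟨w⁻¹ * v.1, ?_⟩
        invFun := fun s => ⟨w * s.1, ?_⟩
        left_inv := ?_
        right_inv := ?_ }
    · rw [MulAction.mem_stabilizer_iff, mul_smul, v.2, ← hw, inv_smul_smul]
    · have := s.2
      rw [MulAction.mem_stabilizer_iff] at this
      rw [mul_smul, this, hw]
    · intro v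
      apply Subtype.ext
      simp
    · intro s
      apply Subtype.ext
      simp
  have h3 : ∀ x : X, Nat.card X * Nat.card (MulAction.stabilizer V x) = Nat.card V := by
    intro x
    have h4 : MulAction.orbit V x = Set.univ := by
      apply Set.eq_univ_of_forall
      intro y
      obtain ⟨v, hv⟩ := ht x y
      exact ⟨v, hv⟩
    have h5 := Nat.card_congr (MulAction.orbitProdStabilizerEquivGroup V x)
    rw [Nat.card_prod, h4, Nat.card_congr (Equiv.Set.univ X)] at h5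
    exact h5
  have hX : 0 < Nat.card X := Nat.card_pos
  apply Nat.eq_of_mul_eq_mul_left hX
  rw [Finset.mul_sum]
  rw [Finset.sum_congr rfl (fun x _ => by rw [h2 x, h3 x])]
  rw [Finset.sum_const, Finset.card_univ, smul_eq_mul, Nat.card_eq_fintype_card (α := X)]

theorem LF1_triv {G : Type} [Group G] [Finite G] (p : ℕ) (hp : p.Prime) (V : Subgroup G)
    (hV : ¬ p ∣ Nat.card V) (E : Subgroup G) (hE : IsPGroup p E) (x : G) (hx : x ∈ E) (hxV : x ∈ V) : x = 1 := by
  obtain ⟨k, hk⟩ := hE ⟨x, hx⟩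
  have hk' : x ^ p ^ k = 1 := by
    have := congrArg (Subgroup.subtype E) hk
    simpa using this
  have h2 : x ^ Nat.card V = 1 := by
    have h3 : (⟨x, hxV⟩ : V) ^ Nat.card V = 1 := pow_card_eq_one'
    have h4 := congrArg (Subtype.val) h3
    rwa [SubmonoidClass.coe_pow] at h4
  have hcop : Nat.Coprime (p ^ k) (Nat.card V) := Nat.Coprime.pow_left k ((Nat.Prime.coprime_iff_not_dvd hp).2 hV)
  have h4 : orderOf x ∣ 1 := by
    rw [← hcop]
    exact Nat.dvd_gcd (orderOf_dvd_of_pow_eq_one hk') (orderOf_dvd_of_pow_eq_one h2)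
  exact orderOf_eq_one_iff.1 (Nat.dvd_one.1 h4)

theorem LF1_pg {G : Type} [Group G] (p : ℕ) (E : Subgroup G) (hE : EAb p E) : IsPGroup p E := by
  intro x
  refine ⟨1, ?_⟩
  apply Subtype.ext
  have := hE.2 x.1 x.2
  simpa using this

/-- a `p`-subgroup meets trivially the kernel, cardinality of the image -/
theorem LF1_im {G : Type} [Group G] [Finite G] (p : ℕ) (hp : p.Prime) (V : Subgroup G) [V.Normal]
    (hV : ¬ p ∣ Nat.card V) (E : Subgroup G) (hE : IsPGroup p E) :
    Nat.card (E.map (QuotientGroup.mk' V)) = Nat.card E := by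
  have hinj : Function.Injective ((QuotientGroup.mk' V).comp E.subtype) := by
    rw [injective_iff_map_eq_one]
    intro x hx
    apply Subtype.ext
    have h1 : (QuotientGroup.mk' V) x.1 = 1 := hx
    have h2 : x.1 ∈ V := by
      rw [← QuotientGroup.ker_mk' V]
      exact h1
    exact LF1_triv p hp V hV E hE x.1 x.2 h2
  have h3 : (E.map (QuotientGroup.mk' V)) = ((QuotientGroup.mk' V).comp E.subtype).range := by
    rw [MonoidHom.range_comp, Subgroup.range_subtype]
  rw [h3]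
  exact (Nat.card_congr (MonoidHom.ofInjective hinj).toEquiv).symm

theorem LF1_cardL {G : Type} [Group G] [Finite G] (V : Subgroup G) [V.Normal] (E' : Subgroup (G ⧸ V)) :
    Nat.card (E'.comap (QuotientGroup.mk' V)) = Nat.card V * Nat.card E' := by
  have h1 := Subgroup.card_mul_index (E'.comap (QuotientGroup.mk' V))
  rw [Subgroup.index_comap_of_surjective E' (QuotientGroup.mk'_surjective V)] at h1
  have h2 := Subgroup.card_mul_index E'
  have h3 : Nat.card G = Nat.card V * Nat.card (G ⧸ V) := by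
    rw [mul_comm]; exact Subgroup.card_eq_card_quotient_mul_card_subgroup V
  have h4 : E'.index ≠ 0 := Subgroup.index_ne_zero_of_finite
  apply Nat.eq_of_mul_eq_mul_right (Nat.pos_of_ne_zero h4)
  rw [h1, h3, ← h2]
  ring

theorem LF1_conj {G : Type} [Group G] [Finite G] (p : ℕ) (hp : p.Prime) (V : Subgroup G) [V.Normal]
    (hV : ¬ p ∣ Nat.card V) (E' : Subgroup (G ⧸ V)) (E F : Subgroup G) (hE : IsPGroup p E) (hF : IsPGroup p F)
    (hE' : E.map (QuotientGroup.mk' V) = E') (hF' : F.map (QuotientGroup.mk' V) = E') :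
    ∃ v : V, LF1_cj (v : G) E = F := by
  have : Fact p.Prime := ⟨hp⟩
  set L := E'.comap (QuotientGroup.mk' V) with hL
  have hsub : ∀ D : Subgroup G, D.map (QuotientGroup.mk' V) = E' → D ≤ L := by
    intro D hD x hx
    rw [hL, Subgroup.mem_comap, ← hD]
    exact Subgroup.mem_map_of_mem _ hx
  have hsyl : ∀ D : Subgroup G, IsPGroup p D → D.map (QuotientGroup.mk' V) = E' →
      IsPGroup p (D.subgroupOf L) ∧ ¬ p ∣ (D.subgroupOf L).index := by
    intro D hD hD'
    have hDL := hsub D hD'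
    constructor
    · exact hD.of_equiv (Subgroup.subgroupOfEquivOfLe hDL).symm
    · have h1 := Subgroup.card_mul_index (D.subgroupOf L)
      rw [Nat.card_congr (Subgroup.subgroupOfEquivOfLe hDL).toEquiv, ← LF1_im p hp V hV D hD, hD',
        hL, LF1_cardL, mul_comm (Nat.card V)] at h1
      have h2 : (D.subgroupOf L).index = Nat.card V :=
        Nat.eq_of_mul_eq_mul_left Nat.card_pos h1
      rw [h2]; exact hV
  obtain ⟨l, hl⟩ := MulAction.exists_smul_eq L ((hsyl E hE hE').1.toSylow (hsyl E hE hE').2)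
    ((hsyl F hF hF').1.toSylow (hsyl F hF hF').2)
  have hl2 : ∀ x : G, x ∈ F ↔ (l : G)⁻¹ * x * l ∈ E := by
    intro x
    constructor
    · intro hx
      have hxL := hsub F hF' hx
      have h1 : (⟨x, hxL⟩ : L) ∈ ((hsyl F hF hF').1.toSylow (hsyl F hF hF').2 : Subgroup L) := hx
      rw [← hl] at h1
      rw [Sylow.coe_subgroup_smul] at h1
      rw [Subgroup.mem_pointwise_smul_iff_inv_smul_mem] at h1
      have h2 : ((MulAut.conj l)⁻¹ • (⟨x, hxL⟩ : L) : L) ∈ E.subgroupOf L := h1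
      rw [Subgroup.mem_subgroupOf] at h2
      simpa [MulAut.smul_def] using h2
    · intro hx
      have hxL : x ∈ L := by
        have h3 := hsub E hE' hx
        have h4 : (l : G) * ((l : G)⁻¹ * x * l) * (l : G)⁻¹ ∈ L := L.mul_mem (L.mul_mem l.2 h3) (L.inv_mem l.2)
        have h5 : (l : G) * ((l : G)⁻¹ * x * l) * (l : G)⁻¹ = x := by group
        rwa [h5] at h4
      have h1 : (⟨x, hxL⟩ : L) ∈ ((hsyl F hF hF').1.toSylow (hsyl F hF hF').2 : Subgroup L) := by
        rw [← hl, Sylow.coe_subgroup_smul, Subgroup.mem_pointwise_smul_iff_inv_smul_mem]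
        show ((MulAut.conj l)⁻¹ • (⟨x, hxL⟩ : L) : L) ∈ E.subgroupOf L
        rw [Subgroup.mem_subgroupOf]
        simpa [MulAut.smul_def] using hx
      exact h1
  -- write `l = v e`
  have h6 : (QuotientGroup.mk' V) (l : G) ∈ E' := l.2
  rw [← hE'] at h6
  obtain ⟨e, he, he2⟩ := Subgroup.mem_map.1 h6
  have h7 : (l : G) * e⁻¹ ∈ V := by
    rw [← QuotientGroup.ker_mk' V, MonoidHom.mem_ker, map_mul, map_inv, he2, mul_inv_cancel]
  refine ⟨⟨(l : G) * e⁻¹, h7⟩, ?_⟩
  ext x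
  rw [LF1_mem, hl2]
  show ((l : G) * e⁻¹)⁻¹ * x * ((l : G) * e⁻¹) ∈ E ↔ _
  have h8 : ((l : G) * e⁻¹)⁻¹ * x * ((l : G) * e⁻¹) = e * ((l : G)⁻¹ * x * l) * e⁻¹ := by group
  rw [h8]
  constructor
  · intro h9
    have h10 := E.mul_mem (E.mul_mem (E.inv_mem he) h9) he
    have h11 : e⁻¹ * (e * ((l : G)⁻¹ * x * l) * e⁻¹) * e = (l : G)⁻¹ * x * l := by group
    rwa [h11] at h10
  · intro h9
    exact E.mul_mem (E.mul_mem he h9) (E.inv_mem he)

theorem LF1_exists {G : Type} [Group G] [Finite G] (p : ℕ) (hp : p.Prime) (V : Subgroup G) [V.Normal]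
    (hV : ¬ p ∣ Nat.card V) (E' : Subgroup (G ⧸ V)) (hE' : EAb p E') :
    ∃ E : Subgroup G, EAb p E ∧ E.map (QuotientGroup.mk' V) = E' := by
  have : Fact p.Prime := ⟨hp⟩
  set L := E'.comap (QuotientGroup.mk' V) with hL
  obtain ⟨P⟩ : Nonempty (Sylow p L) := inferInstance
  set E : Subgroup G := (P : Subgroup L).map L.subtype with hE
  have hEp : IsPGroup p E := P.2.map _
  have hEL : E ≤ L := by
    rw [hE]; exact Subgroup.map_subtype_le _
  have hcE : Nat.card E = Nat.card (P : Subgroup L) :=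
    Nat.card_congr ((P : Subgroup L).equivMapOfInjective L.subtype L.subtype_injective).toEquiv.symm
  have h1 := Subgroup.card_mul_index (P : Subgroup L)
  have hcL : Nat.card L = Nat.card V * Nat.card E' := LF1_cardL V E'
  rw [← hcE, hcL] at h1
  have h2 : ¬ p ∣ (P : Subgroup L).index := P.not_dvd_index
  obtain ⟨a, ha⟩ := (IsPGroup.iff_card).1 hEp
  obtain ⟨b, hb⟩ := (IsPGroup.iff_card).1 (LF1_pg p E' hE')
  have hcard : Nat.card E' ≤ Nat.card E := by
    apply Nat.le_of_dvd Nat.card_pos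
    have h3 : Nat.card E' ∣ Nat.card E * (P : Subgroup L).index := by
      rw [h1]; exact Dvd.intro_left _ rfl
    refine Nat.Coprime.dvd_of_dvd_mul_right ?_ h3
    rw [hb]
    exact Nat.Coprime.pow_left b ((Nat.Prime.coprime_iff_not_dvd hp).2 h2)
  have hmap : E.map (QuotientGroup.mk' V) = E' := by
    apply Subgroup.eq_of_le_of_card_ge
    · rintro y ⟨x, hx, rfl⟩
      exact hEL hx
    · rw [LF1_im p hp V hV E hEp]; exact hcard
  refine ⟨E, ⟨?_, ?_⟩, hmap⟩
  · intro x hx y hy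
    have h3 : (QuotientGroup.mk' V) x ∈ E' := hEL hx
    have h4 : (QuotientGroup.mk' V) y ∈ E' := hEL hy
    have h5 := hE'.1 _ h3 _ h4
    have h6 : x * y * (y * x)⁻¹ ∈ V := by
      rw [← QuotientGroup.ker_mk' V, MonoidHom.mem_ker, map_mul, map_mul, map_inv, map_mul, h5, mul_inv_cancel]
    have h7 := LF1_triv p hp V hV E hEp _ (E.mul_mem (E.mul_mem hx hy) (E.inv_mem (E.mul_mem hy hx))) h6
    exact mul_inv_eq_one.1 h7
  · intro x hx
    have h3 : (QuotientGroup.mk' V) x ∈ E' := hEL hx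
    have h5 := hE'.2 _ h3
    have h6 : x ^ p ∈ V := by
      rw [← QuotientGroup.ker_mk' V, MonoidHom.mem_ker, map_pow, h5]
    exact LF1_triv p hp V hV E hEp _ (E.pow_mem hx p) h6

theorem LF1_stab {G : Type} [Group G] (p : ℕ) (V : Subgroup G) [V.Normal]
    (E' : Subgroup (G ⧸ V)) (a : G)
    (ha : ∀ x : G ⧸ V, x ∈ E' ↔ (QuotientGroup.mk' V a)⁻¹ * x * (QuotientGroup.mk' V a) ∈ E') (E : Subgroup G)
    (hE : EAb p E ∧ E.map (QuotientGroup.mk' V) = E') :
    EAb p (LF1_cj a E) ∧ (LF1_cj a E).map (QuotientGroup.mk' V) = E' := by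
  obtain ⟨⟨h1, h2⟩, h3⟩ := hE
  refine ⟨⟨?_, ?_⟩, ?_⟩
  · intro x hx y hy
    rw [LF1_mem] at hx hy
    have h4 := h1 _ hx _ hy
    have h5 : a⁻¹ * x * a * (a⁻¹ * y * a) = a⁻¹ * (x * y) * a := by group
    have h6 : a⁻¹ * y * a * (a⁻¹ * x * a) = a⁻¹ * (y * x) * a := by group
    rw [h5, h6] at h4
    exact mul_left_cancel (mul_right_cancel h4)
  · intro x hx
    rw [LF1_mem] at hx
    have h4 := h2 _ hx
    have h5 : a⁻¹ * x * a = MulAut.conj a⁻¹ x := by simp
    rw [h5, ← map_pow] at h4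
    exact (MulAut.conj a⁻¹).injective (h4.trans (map_one _).symm)
  · ext y
    constructor
    · rintro ⟨x, hx, rfl⟩
      have hx2 : a⁻¹ * x * a ∈ E := (LF1_mem a E x).1 hx
      rw [ha, ← map_inv, ← map_mul, ← map_mul, ← h3]
      exact Subgroup.mem_map_of_mem _ hx2
    · intro hy
      rw [ha, ← h3] at hy
      obtain ⟨x, hx, hx2⟩ := Subgroup.mem_map.1 hy
      refine ⟨a * x * a⁻¹, ?_, ?_⟩
      · show a * x * a⁻¹ ∈ LF1_cj a E
        rw [LF1_mem]
        have : a⁻¹ * (a * x * a⁻¹) * a = x := by group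
        rw [this]; exact hx
      · rw [map_mul, map_mul, hx2, map_inv]; group

theorem LF1 : LF1_stmt := by
  intro G _ _ p hp V _ hV E' hE' g hg
  classical
  let X := {E : Subgroup G // EAb p E ∧ E.map (QuotientGroup.mk' V) = E'}
  have hst : ∀ v : V, ∀ x : G ⧸ V, x ∈ E' ↔ (QuotientGroup.mk' V (v : G))⁻¹ * x * (QuotientGroup.mk' V (v : G)) ∈ E' := by
    intro v x
    have : QuotientGroup.mk' V (v : G) = 1 := by
      rw [← MonoidHom.mem_ker, QuotientGroup.ker_mk']; exact v.2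
    rw [this]; simp
  let act : MulAction V X :=
    { smul := fun v E => ⟨LF1_cj (v : G) E.1, LF1_stab p V E' (v : G) (hst v) E.1 E.2⟩
      one_smul := by
        intro E
        apply Subtype.ext
        ext x
        show x ∈ LF1_cj ((1 : V) : G) E.1 ↔ _
        rw [LF1_mem]; simp
      mul_smul := by
        intro v w E
        apply Subtype.ext
        ext x
        show x ∈ LF1_cj ((v * w : V) : G) E.1 ↔ x ∈ LF1_cj (v : G) (LF1_cj (w : G) E.1)
        rw [LF1_mem, LF1_mem, LF1_mem]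
        simp [mul_assoc] }
  have hact : ∀ (v : V) (E : X), (v • E).1 = LF1_cj (v : G) E.1 := fun v E => rfl
  have hgs : ∀ x : G ⧸ V, x ∈ E' ↔ (QuotientGroup.mk' V g⁻¹)⁻¹ * x * (QuotientGroup.mk' V g⁻¹) ∈ E' := by
    intro x
    rw [hg x, map_inv, inv_inv]
    rfl
  let φ : X → X := fun E => ⟨LF1_cj g⁻¹ E.1, LF1_stab p V E' g⁻¹ hgs E.1 E.2⟩
  obtain ⟨E0, hE0⟩ := LF1_exists p hp V hV E' hE'
  have : Nonempty X := ⟨⟨E0, hE0⟩⟩
  have ht : ∀ x y : X, ∃ v : V, v • x = y := by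
    intro x y
    obtain ⟨v, hv⟩ := LF1_conj p hp V hV E' x.1 y.1 (LF1_pg p _ x.2.1) (LF1_pg p _ y.2.1) x.2.2 y.2.2
    exact ⟨v, Subtype.ext hv⟩
  rw [← LF1_cnt V X ht φ]
  have hiff : ∀ (E : Subgroup G) (v : V), (∀ x : G, x ∈ E ↔ (g * (v : G)) * x * (g * (v : G))⁻¹ ∈ E) ↔
      LF1_cj (v : G) E = LF1_cj g⁻¹ E := by
    intro E v
    constructor
    · intro h
      ext x
      rw [LF1_mem, LF1_mem, h]
      have : g * (v : G) * ((v : G)⁻¹ * x * v) * (g * (v : G))⁻¹ = (g⁻¹)⁻¹ * x * g⁻¹ := by group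
      rw [this]
    · intro h x
      have h1 : (v : G) * x * (v : G)⁻¹ ∈ LF1_cj (v : G) E ↔ (v : G) * x * (v : G)⁻¹ ∈ LF1_cj g⁻¹ E := by rw [h]
      rw [LF1_mem, LF1_mem] at h1
      have h2 : (v : G)⁻¹ * ((v : G) * x * (v : G)⁻¹) * v = x := by group
      have h3 : (g⁻¹)⁻¹ * ((v : G) * x * (v : G)⁻¹) * g⁻¹ = g * (v : G) * x * (g * (v : G))⁻¹ := by group
      rw [h2, h3] at h1
      exact h1
  refine Nat.card_congr
    { toFun := fun c => ⟨(⟨c.1.1, c.2.1, c.2.2.1⟩, c.1.2), ?_⟩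
      invFun := fun s => ⟨(s.1.1.1, s.1.2), s.1.1.2.1, s.1.1.2.2, ?_⟩
      left_inv := fun c => rfl
      right_inv := fun s => rfl }
  · apply Subtype.ext
    exact (hiff c.1.1 c.1.2).1 c.2.2.2
  · apply (hiff s.1.1.1 s.1.2).2
    exact congrArg Subtype.val s.2

end QS
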