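import Pool.Agent.helper4.QS.Spec

/-! # Quantum cat maps at the shortest periods, module LUP -/

open scoped BigOperators ComplexOrder ComplexConjugate Topology

namespace Pool.Agent.QS

open Pool.Agent.helper86.CM Filter

theorem LUP : LUP_stmt := by
  intro t ht k
  induction k with
  | zero =>
    show (0 : ℤ) ≤ 0 ∧ (0 : ℤ) < 1
    norm_num
  | succ k ih =>
    obtain ⟨h1, h2⟩ := ih
    have h3 : lu t (k + 1 + 1) = t * lu t (k + 1) - lu t k := rfl
    refine ⟨by linarith, ?_⟩
    rw [h3]
    nlinarith

end Pool.Agent.QS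

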